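import Pool.Agent.H590.NL.Stm

set_option autoImplicit false

/-!
# GL in all dimensions: linear invariance (by helper824)
-/

open MeasureTheory Filter Topology Set
open scoped BigOperators ENNReal

namespace Pool.Agent.H824.NL

open H590NL

/-- the linear map `x ↦ Mᵀ x` -/
noncomputable def TL {n : ℕ} (M : Matrix (Fin n) (Fin n) ℝ) : V n →ₗ[ℝ] V n :=
  Matrix.toLin' M.transpose

theorem TL_apply {n : ℕ} (M : Matrix (Fin n) (Fin n) ℝ) (x : V n) :
    TL M x = M.transpose.mulVec x := by
  unfold TL
  rw [Matrix.toLin'_apply]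

theorem TL_det {n : ℕ} (M : Matrix (Fin n) (Fin n) ℝ) : LinearMap.det (TL M) = M.det := by
  unfold TL
  rw [LinearMap.det_toLin', Matrix.det_transpose]

theorem TL_inj {n : ℕ} {M : Matrix (Fin n) (Fin n) ℝ} (h : M.det ≠ 0) :
    Function.Injective (TL M) := by
  have hd : LinearMap.det (TL M) ≠ 0 := by rw [TL_det]; exact h
  exact (LinearMap.equivOfDetNeZero (TL M) hd).injective

theorem cov {n : ℕ} {M : Matrix (Fin n) (Fin n) ℝ} (h : M.det ≠ 0) (g : V n → ℝ) :
    ∫ x : V n, g (TL M x) = |M.det|⁻¹ * ∫ x : V n, g x := by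
  have hc : Continuous (TL M) := LinearMap.continuous_of_finiteDimensional _
  have he : MeasurableEmbedding (TL M) :=
    hc.measurable.measurableEmbedding (TL_inj h)
  have hd : LinearMap.det (TL M) ≠ 0 := by rw [TL_det]; exact h
  have hm := MeasureTheory.Measure.map_linearMap_addHaar_eq_smul_addHaar
    (volume : Measure (V n)) hd
  rw [← he.integral_map, hm, integral_smul_measure, TL_det, smul_eq_mul, abs_inv,
    ENNReal.toReal_ofReal (by positivity)]

theorem ip_mulVec {n : ℕ} (M : Matrix (Fin n) (Fin n) ℝ) (u x : V n) :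
    ip (M.mulVec u) x = ip u (TL M x) := by
  rw [TL_apply]
  have h1 : ∀ a b : V n, ip a b = dotProduct a b := fun a b => rfl
  rw [h1, h1, Matrix.dotProduct_mulVec, Matrix.vecMul_transpose]

theorem dm_mulVec {n : ℕ} {κ : Type} [Fintype κ] (M : Matrix (Fin n) (Fin n) ℝ) (v : κ → V n)
    (f : Fin n → κ) :
    (dm (fun k => M.mulVec (v k)) f).det = M.det * (dm v f).det := by
  have h : dm (fun k => M.mulVec (v k)) f = dm v f * M.transpose := by
    ext i j
    simp only [dm, Matrix.of_apply, Matrix.mul_apply, Matrix.mulVec, dotProduct,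
      Matrix.transpose_apply]
    refine Finset.sum_congr rfl fun k _ => ?_
    ring
  rw [h, Matrix.det_mul, Matrix.det_transpose]
  ring

theorem gl : S_GL := by
  intro n κ _ p _ _ v b M h
  have hPh : ∀ x : V n,
      Ph p (fun k => M.mulVec (v k)) b x = Ph p v b (TL M x) := by
    intro x
    unfold Ph
    refine Finset.sum_congr rfl fun k _ => ?_
    rw [ip_mulVec]
  have hDD : ∀ x : V n,
      DD p (fun k => M.mulVec (v k)) b x = M.det ^ 2 * DD p v b (TL M x) := by
    intro x
    unfold DD
    rw [mul_left_comm, Finset.mul_sum (a := M.det ^ 2)]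
    congr 1
    refine Finset.sum_congr rfl fun f _ => ?_
    rw [dm_mulVec]
    simp only [ip_mulVec]
    ring
  constructor
  · unfold FF
    simp only [hPh]
    exact cov h fun x => Real.exp (-(Ph p v b x))
  · unfold AA
    simp only [hPh, hDD]
    have e : ∀ x : V n, Real.exp (-(Ph p v b (TL M x))) *
        (M.det ^ 2 * DD p v b (TL M x))
        = M.det ^ 2 *
          ((fun y => Real.exp (-(Ph p v b y)) * DD p v b y) (TL M x)) := by
      intro x
      simp only
      ring
    have e2 := cov h (fun y => Real.exp (-(Ph p v b y)) * DD p v b y)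
    simp only [e]
    rw [integral_const_mul]
    rw [e2]
    have habs : 0 < |M.det| := abs_pos.2 h
    rw [← sq_abs M.det]
    field_simp

end Pool.Agent.H824.NL
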